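import Pool.Agent.Helper85_CYD.St2
import Pool.Agent.Helper85_CYD.StG

open Polynomial IsLocalRing

namespace Pool.Agent.CYD

theorem ngr_norm_prod (K : Type) [Field K] [NumberField K] (y : K) :
    |((Algebra.norm ℚ y : ℚ) : ℝ)| = ∏ σ : K →ₐ[ℚ] ℂ, ‖σ y‖ := by
  have h := Algebra.norm_eq_prod_embeddings ℚ ℂ y
  have h2 := congrArg (fun t : ℂ => ‖t‖) h
  simp only [norm_prod] at h2
  rw [← h2]
  simp

theorem ngr_one_le (K : Type) [Field K] [NumberField K] (y : K) (hy : IsIntegral ℤ y)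
    (h0 : y ≠ 0) : 1 ≤ |Algebra.norm ℚ y| := by
  have h1 : IsIntegral ℤ (Algebra.norm ℚ y) := Algebra.isIntegral_norm ℚ hy
  obtain ⟨k, hk⟩ := IsIntegrallyClosed.isIntegral_iff.1 h1
  have h2 : Algebra.norm ℚ y ≠ 0 := by
    rw [Ne, Algebra.norm_eq_zero_iff]
    exact h0
  rw [← hk] at h2 ⊢
  have h3 : k ≠ 0 := by
    rintro rfl
    simp at h2
  have h4 : 1 ≤ |k| := Int.one_le_abs h3
  have : ((1 : ℤ) : ℚ) ≤ ((|k| : ℤ) : ℚ) := by exact_mod_cast h4
  simpa using this

theorem ngr_root_ne {n : ℕ} (hn : 0 < n) (K : Type) [Field K] [NumberField K] {z : K}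
    (hz : IsPrimitiveRoot z n) {r : ℤ[X]} (hr : r ≠ 0) (hd : r.natDegree < n.totient) :
    aeval z r ≠ 0 := by
  intro h0
  have h1 : minpoly ℤ z ∣ r := minpoly.isIntegrallyClosed_dvd (hz.isIntegral hn) h0
  rw [← cyclotomic_eq_minpoly hz hn] at h1
  have h2 := natDegree_le_of_dvd h1 hr
  rw [natDegree_cyclotomic] at h2
  omega

theorem ngr (hAbs : AbsStmt) : NgrStmt := by
  intro n p g h r ε F hε heq hr hd K _ _ _ z hz
  have : NeZero n := ⟨by have := F.hn; omega⟩
  have hn : 0 < n := by have := F.hn; omega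
  obtain ⟨hg0, hg1, habs⟩ := hAbs n g h F K z hz
  have hfin : Module.finrank ℚ K = n.totient :=
    IsCyclotomicExtension.finrank K (cyclotomic.irreducible_rat hn)
  have hcard : Fintype.card (K →ₐ[ℚ] ℂ) = n.totient := by
    rw [← hfin]
    exact AlgHom.card ℚ K ℂ
  have hev : aeval z g.reverse - (ε : K) * aeval z g = (p : K) * aeval z r := by
    have := congrArg (fun f : ℤ[X] => aeval z f) heq
    simpa using this
  have hint : IsIntegral ℤ (aeval z r) := by
    have h1 : IsIntegral ℤ z := hz.isIntegral hn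
    exact IsIntegral.of_mem_of_fg _ (h1.fg_adjoin_singleton) _ (aeval_mem_adjoin_singleton ℤ z)
  have h1 := ngr_one_le K _ hint (ngr_root_ne hn K hz hr hd)
  -- the norm of p r(z)
  have h2 : |((Algebra.norm ℚ ((p : K) * aeval z r) : ℚ) : ℝ)| =
      (p : ℝ) ^ n.totient * |((Algebra.norm ℚ (aeval z r) : ℚ) : ℝ)| := by
    rw [map_mul]
    have e : Algebra.norm ℚ (p : K) = (p : ℚ) ^ n.totient := by
      have := Algebra.norm_algebraMap (S := K) (p : ℚ)
      rw [hfin] at this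
      rw [← this]
      simp
    rw [e]
    push_cast
    rw [abs_mul]
    congr 1
    rw [abs_of_nonneg]
    positivity
  have h3 : |((Algebra.norm ℚ ((p : K) * aeval z r) : ℚ) : ℝ)| ≤
      2 ^ n.totient * |((Algebra.norm ℚ (aeval z g) : ℚ) : ℝ)| := by
    rw [← hev, ngr_norm_prod, ngr_norm_prod, ← hcard, ← Finset.card_univ, ← Finset.prod_const,
      ← Finset.prod_mul_distrib]
    refine Finset.prod_le_prod (fun _ _ => norm_nonneg _) (fun σ _ => ?_)
    have h4 := habs σ.toRingHom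
    have h5 : ‖σ (aeval z g.reverse)‖ = ‖σ (aeval z g)‖ := by
      unfold uu at h4
      have h6 : ‖σ (aeval z g.reverse / aeval z g)‖ = 1 := h4
      rw [map_div₀, norm_div] at h6
      have h7 : ‖σ (aeval z g)‖ ≠ 0 := by
        rw [norm_ne_zero_iff]
        exact (map_ne_zero σ).2 hg0
      exact (div_eq_one_iff_eq h7).1 h6
    rw [map_sub, map_mul]
    refine (norm_sub_le _ _).trans ?_
    rw [norm_mul, h5]
    have h8 : ‖σ (ε : K)‖ = 1 := by
      rcases hε with rfl | rfl <;> simp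
    rw [h8]
    linarith
  have h9 : (p : ℝ) ^ n.totient ≤ 2 ^ n.totient * |((Algebra.norm ℚ (aeval z g) : ℚ) : ℝ)| := by
    refine le_trans ?_ h3
    rw [h2]
    have h10 : (1 : ℝ) ≤ |((Algebra.norm ℚ (aeval z r) : ℚ) : ℝ)| := by exact_mod_cast h1
    have : (0 : ℝ) ≤ (p : ℝ) ^ n.totient := by positivity
    nlinarith
  exact_mod_cast h9

end Pool.Agent.CYD
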