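import Pool.Agent.Helper85_CYD.St1
import Pool.Agent.Helper85_CYD.StG

open Polynomial IsLocalRing

namespace Pool.Agent.CYD

theorem uni_mem {n : ℕ} (hn : 0 < n) {K : Type} [Field K] (A : ValuationSubring K) {z : K}
    (hz : IsPrimitiveRoot z n) : z ∈ A := by
  rcases A.mem_or_inv_mem z with h | h
  · exact h
  · have h0 : z ≠ 0 := hz.ne_zero (by omega)
    have h1 : z = (z⁻¹) ^ (n - 1) := by
      have h2 : z ^ n = 1 := hz.pow_eq_one
      have h3 : z ^ (n - 1) * z = 1 := by
        rw [← pow_succ, Nat.sub_add_cancel hn, h2]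
      rw [inv_pow]
      exact eq_inv_of_mul_eq_one_right h3
    rw [h1]
    exact A.toSubring.pow_mem h _

theorem uni_coe_aeval {K : Type} [Field K] (A : ValuationSubring K) (x : A) (f : ℤ[X]) :
    ((aeval x f : A) : K) = aeval (x : K) f := by
  have := aeval_algebraMap_apply K x f
  rw [show algebraMap A K x = (x : K) from rfl] at this
  rw [this]
  rfl

theorem uni_prim {K : Type} [Field K] (A : ValuationSubring K) {x : A} {n : ℕ}
    (h : IsPrimitiveRoot (x : K) n) : IsPrimitiveRoot x n :=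
  IsPrimitiveRoot.of_map_of_injective (f := A.subtype) h Subtype.val_injective

/-- splitting of a primitive root -/
theorem uni_split {p q : ℕ} (hp : p.Prime) (hq : q.Prime) (hpq : p ≠ q) {K : Type} [Field K]
    {z : K} (hz : IsPrimitiveRoot z (p * q)) : ∃ c w : K, IsPrimitiveRoot c q ∧
      IsPrimitiveRoot w p ∧ z = c * w := by
  have hcop : Nat.Coprime p q := (Nat.coprime_primes hp hq).2 hpq
  obtain ⟨a, ha1, ha2⟩ := Nat.chineseRemainder hcop 0 1
  obtain ⟨b, hb1, hb2⟩ := Nat.chineseRemainder hcop 1 0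
  have hab : a + b ≡ 1 [MOD p * q] := by
    rw [← Nat.modEq_and_modEq_iff_modEq_mul hcop]
    exact ⟨by simpa using ha1.add hb1, by simpa using ha2.add hb2⟩
  have hpa : p ∣ a := (Nat.modEq_zero_iff_dvd).1 ha1
  have hqb : q ∣ b := (Nat.modEq_zero_iff_dvd).1 hb2
  obtain ⟨a', rfl⟩ := hpa
  obtain ⟨b', rfl⟩ := hqb
  have hqa : Nat.Coprime a' q := by
    have h1 : Nat.Coprime (p * a') q := by
      have := Nat.ModEq.gcd_eq ha2
      rw [Nat.gcd_one_left] at this
      exact this
    exact Nat.Coprime.coprime_mul_left h1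
  have hpb : Nat.Coprime b' p := by
    have h1 : Nat.Coprime (q * b') p := by
      have := Nat.ModEq.gcd_eq hb1
      rw [Nat.gcd_one_left] at this
      exact this
    exact Nat.Coprime.coprime_mul_left h1
  refine ⟨z ^ (p * a'), z ^ (q * b'), ?_, ?_, ?_⟩
  · rw [pow_mul]
    exact (hz.pow (Nat.mul_pos hp.pos hq.pos) rfl).pow_of_coprime a' hqa
  · rw [pow_mul]
    exact (hz.pow (Nat.mul_pos hp.pos hq.pos) (mul_comm p q)).pow_of_coprime b' hpb
  · rw [← pow_add]
    have h1 : z ^ (p * a' + q * b') = z ^ 1 := by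
      have h2 := hz.pow_eq_one
      have h3 : ∀ k : ℕ, z ^ k = z ^ (k % (p * q)) := by
        intro k
        conv_lhs => rw [← Nat.mod_add_div k (p * q), pow_add, pow_mul, h2, one_pow, mul_one]
      rw [h3 (p * a' + q * b'), h3 1]
      congr 1
    rw [h1, pow_one]

theorem uni (hTam : TamStmt) (hAwy : AwyStmt) (hAbs : AbsStmt) (hKro : KroStmt)
    (hRev : RevStmt) : UniStmt := by
  intro n p q g h F K _ _ hcyc h1 h2
  have hnpq := F.hn
  subst hnpq
  have hnp : 0 < p * q := Nat.mul_pos F.hp.pos F.hq.pos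
  have hn3 := F.toFg.hn
  have : NeZero (p * q) := ⟨hnp.ne'⟩
  set z := IsCyclotomicExtension.zeta (p * q) ℚ K with hzdef
  have hz : IsPrimitiveRoot z (p * q) := IsCyclotomicExtension.zeta_spec (p * q) ℚ K
  obtain ⟨hg0, hg1, habs⟩ := hAbs _ g h F.toFg K z hz
  -- integrality at A with p in the maximal ideal
  have part : ∀ (p q : ℕ) (F : Fac (p * q) p q g h), IsPrimitiveRoot z (p * q) →
      (∀ (A : ValuationSubring K) (c w : A), Loc p q A c w → ex A g q c = 0) →
      ∀ A : ValuationSubring K, (p : A) ∈ maximalIdeal A → uu g z ∈ A := by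
    intro p q F hz h1 A hm
    obtain ⟨c, w, hc, hw, hzcw⟩ := uni_split F.hp F.hq F.hpq hz
    have hcA := uni_mem F.hq.pos A hc
    have hwA := uni_mem F.hp.pos A hw
    have hL : Loc p q A ⟨c, hcA⟩ ⟨w, hwA⟩ := ⟨hm, uni_prim A hc, uni_prim A hw⟩
    obtain ⟨C, -, hC⟩ := hTam _ p q g h F K A _ _ hL
    obtain ⟨θ, -, hθ⟩ := hC 1 (by
      intro hd
      exact F.hp.one_lt.ne' (Nat.dvd_one.1 hd))
    rw [h1 A _ _ hL, zpow_zero, one_mul, pow_one] at hθ
    have : uu g z = (θ : K) := by
      rw [hzcw]; exact hθ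
    rw [this]
    exact θ.2
  have hmem : ∀ A : ValuationSubring K, uu g z ∈ A := by
    intro A
    by_cases hu : IsUnit ((p * q : ℕ) : A)
    · have hzA := uni_mem hnp A hz
      obtain ⟨u1, u2⟩ := hAwy _ g h F.toFg K A ⟨z, hzA⟩ hu (uni_prim A hz)
      unfold uu
      obtain ⟨v, hv⟩ := u1
      have e1 : aeval z g = ((v : A) : K) := by
        rw [hv, uni_coe_aeval]
      have e2 : aeval z g.reverse = ((aeval (⟨z, hzA⟩ : A) g.reverse : A) : K) := by
        rw [uni_coe_aeval]
      have e3 : ((v : A) : K)⁻¹ = (((v⁻¹ : Aˣ) : A) : K) := by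
        have h3 : ((v : A) : K) * (((v⁻¹ : Aˣ) : A) : K) = 1 := by
          have := congrArg A.subtype (Units.mul_inv v)
          rw [map_mul, map_one] at this
          exact this
        exact (eq_inv_of_mul_eq_one_right h3).symm
      rw [div_eq_mul_inv, e1, e2, e3]
      exact A.mul_mem _ _ (SetLike.coe_mem _) (SetLike.coe_mem _)
    · have hmx : ((p * q : ℕ) : A) ∈ maximalIdeal A := (mem_maximalIdeal _).2 hu
      rw [Nat.cast_mul] at hmx
      rcases (maximalIdeal.isMaximal A).isPrime.mem_or_mem hmx with hm | hm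
      · exact part p q F hz h1 A hm
      · have F' : Fac (q * p) q p g h := by
          have := F.symm
          rwa [mul_comm p q] at this
        have hz' : IsPrimitiveRoot z (q * p) := by rwa [mul_comm q p]
        exact part q p F' hz' h2 A hm
  obtain ⟨s, i, hs, hi⟩ := hKro (p * q) F.toFg.ho K (uu g z) z hz hmem habs
  have hs2 : (s : K) * s = 1 := by
    rcases hs with rfl | rfl <;> simp
  -- g*(z) = s z^i g(z)
  have hgz : aeval z g.reverse = (s : K) * z ^ i * aeval z g := by
    unfold uu at hi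
    rwa [div_eq_iff hg0] at hi
  have hzi : z ^ i = z ^ (i % (p * q)) := by
    conv_lhs => rw [← Nat.mod_add_div i (p * q), pow_add, pow_mul, hz.pow_eq_one, one_pow, mul_one]
  have hdvd : ∀ f : ℤ[X], aeval z f = 0 → cyclotomic (p * q) ℤ ∣ f := by
    intro f hf
    rw [cyclotomic_eq_minpoly hz hnp]
    exact minpoly.isIntegrallyClosed_dvd (hz.isIntegral hnp) hf
  have hcyc0 : aeval z (cyclotomic (p * q) ℤ) = 0 := by
    rw [cyclotomic_eq_minpoly hz hnp]
    exact minpoly.aeval _ _
  -- REV at z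
  have hrev : z * (aeval z g * aeval z h) + aeval z g.reverse * aeval z h.reverse = 0 := by
    have h3 := congrArg (fun f : ℤ[X] => aeval z f) (hRev (p * q) hn3)
    simp only [map_add, map_mul, aeval_X, hcyc0, mul_zero] at h3
    rw [← F.fac, reverse_mul_of_domain] at h3
    simpa using h3
  have hz0 : z ≠ 0 := hz.ne_zero hnp.ne'
  have hlt : i % (p * q) < p * q := Nat.mod_lt _ hnp
  refine ⟨s, i % (p * q), p * q + 1 - i % (p * q), hs, ?_, ?_, ?_⟩
  · have : i % (p * q) + (p * q + 1 - i % (p * q)) = p * q + 1 := by omega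
    rw [this, Nat.add_mod_left]
    exact Nat.mod_eq_of_lt (by omega)
  · apply hdvd
    simp only [map_sub, map_mul, map_pow, aeval_X, eq_intCast, map_intCast]
    rw [hgz, ← hzi]
    linear_combination (-(z ^ i * aeval z g)) * hs2
  · apply hdvd
    simp only [map_add, map_mul, map_pow, aeval_X, eq_intCast, map_intCast]
    have h4 : z ^ (i % (p * q)) * z ^ (p * q + 1 - i % (p * q)) = z := by
      rw [← pow_add]
      have : i % (p * q) + (p * q + 1 - i % (p * q)) = p * q + 1 := by omega
      rw [this, pow_succ, hz.pow_eq_one, one_mul]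
    have h5 : z * aeval z h + (s : K) * z ^ i * aeval z h.reverse = 0 := by
      have h6 : aeval z g * (z * aeval z h + (s : K) * z ^ i * aeval z h.reverse) = 0 := by
        rw [hgz] at hrev
        linear_combination hrev
      exact (mul_eq_zero.1 h6).resolve_left hg0
    have h7 : z ^ (i % (p * q)) * (z ^ (p * q + 1 - i % (p * q)) * aeval z h +
        (s : K) * aeval z h.reverse) = 0 := by
      rw [mul_add, ← mul_assoc, h4, ← hzi]
      linear_combination h5
    exact (mul_eq_zero.1 h7).resolve_left (pow_ne_zero _ hz0)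

end Pool.Agent.CYD
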